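import Pool.Agent.Helper57K9.XZ.All

/-!
# The zombie number of the toroidal grid has order `n^(3/2)`

The game, the probability `s_k(G)` that the survivor wins under optimal play and the zombie number
`z(G)` are defined in `Pool.Agent.Helper57K9.Zomb.Game`; the upper bound `2561 n^(3/2)` is the result
`ThreeHalvesUpperBound` of this problem. New here is the lower bound `c n^(3/2)` for all `n ≥ 3`.

Idea of the proof of the lower bound. Let there be `k = c n^(3/2)` zombies. The survivor moves only to
the east and to the north, and the difference `v` of the numbers of these moves stays in a tube
`|v| ≤ R`, `R = O(log n)`. In the frame of the survivor the uniform measure is superinvariant off the
two axes. A zombie in front of the survivor which has touched the east axis comes nearer along this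
axis, and its distance `H` to the axis is a random walk reflected at `0`, whose increments depend on the
path of the survivor through `v / 2` only. So the mean number of zombies which are adjacent to the
survivor on the axis at a given time can be as large as a power of `log n`, but if `v` touches the level
`R` at least once in every window of length `G = O(log n)`, then its sum over such a window is `O(c G)`:
the zombies cannot stay near the axis, because every touch pushes them away. Time is divided into
epochs; in the even ones the survivor goes to the east whenever this is safe until `v = R`, and then
back to `v = 0`; in the odd ones he does the same to the north, until `v = - R`. During the other half of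
an epoch all zombies which are near and in front are far off the axes, so all moves are safe. The
number of steps blocked by zombies during an epoch is small compared to `R`: here one needs a
decoupling (a zombie which blocks a step was never relevant for the survivor before the epoch, so it
may be replaced by a harmless zombie) and a sum over all possible patterns of blocked steps. Zombies
from the north-east are rare; when one is near at the beginning of an epoch the survivor uses, instead,
the strategy of `OddTorusOrder` of this problem against the at most 29 zombies of this kind, while all
others are far off the axes. After `n^10` epochs all zombies are behind the survivor, for ever.
-/

set_option autoImplicit false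

namespace Pool.Agent.Results.MP_34e428_co.ExactOrder

open Pool.Agent.Helper57K9.Zomb Pool.Agent.Helper57K9.XZ

/-- There is a constant `c > 0` such that for all `n ≥ 3` the zombie number of `C_n □ C_n` lies between
`c n^(3/2)` and `2561 n^(3/2)`. -/
theorem result : ∃ c : ℝ, 0 < c ∧ ∀ n : ℕ, 3 ≤ n →
    c * (n : ℝ) ^ (3 / 2 : ℝ) ≤ (zombieNumber (torus n) : ℝ) ∧
    (zombieNumber (torus n) : ℝ) ≤ 2561 * (n : ℝ) ^ (3 / 2 : ℝ) :=
  exact_order

end Pool.Agent.Results.MP_34e428_co.ExactOrder
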