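import Pool.Agent.Helper57K9.Zomb.Upper

/-!
# The zombie number of the toroidal grid is `O(n^(3/2))`

The game, the probability `s_k(G)` that the survivor wins under optimal play and the zombie number
`z(G)` are defined in `Pool.Agent.Helper57K9.Zomb.Game`.

Idea of the proof: conditional on the path of the survivor the zombies are independent, so a union
bound over the `5^T` paths of length `T = n / 8` reduces the claim to one zombie: along every path of
length `T` a uniformly placed zombie catches the survivor with probability at least
`c T^(3/2) / n^2`.  For this start with mass `1` at every vertex.  In the frame of the survivor the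
mass at `p ≠ 0` is at any time at least `a(p₂)` and at least `b(p₁)`, where the profiles `a`, `b`
evolve by a one-dimensional dynamics which depends only on the vertical (horizontal) moves of the
survivor; in every round at least `a(0) + b(0)` is caught.  If `n` is the number of rounds left and `v`,
`h` are the numbers of vertical and horizontal moves among them (`v + h ≤ n`), the contribution is at
least `2 E|B - v|` with `B` binomial `(n, 1/2)`, hence at least `2 (n/12)^(1/2)`.
-/

set_option autoImplicit false

namespace Pool.Agent.Results.MP_34e428_co.ThreeHalvesUpperBound

open Pool.Agent.Helper57K9.Zomb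

/-- For all `n ≥ 3` the zombie number of `C_n □ C_n` is at most `2561 n^(3/2)`, and against
`k ≥ 2560 n^(3/2)` zombies the survivor wins with probability at most `exp (-n)`. -/
theorem result (n : ℕ) (hn : 3 ≤ n) :
    (zombieNumber (torus n) : ℝ) ≤ 2561 * (n : ℝ) ^ (3 / 2 : ℝ) ∧
    ∀ k : ℕ, 2560 * (n : ℝ) ^ (3 / 2 : ℝ) ≤ k → survivalProb (torus n) k ≤ Real.exp (-n) := by
  have h : (n : ℝ) ^ (3 / 2 : ℝ) = (n : ℝ) * Real.sqrt n := by
    rw [Real.sqrt_eq_rpow, show (3 / 2 : ℝ) = 1 + 1 / 2 by norm_num,
      Real.rpow_add (by have : 0 < n := by omega
                        exact_mod_cast this), Real.rpow_one]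
  rw [h]
  exact ⟨zombieNumber_le n hn, fun k hk => upper n hn k hk⟩

end Pool.Agent.Results.MP_34e428_co.ThreeHalvesUpperBound
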